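import Pool.Agent.helper9.HX.Spec

/-! Row EQ1: the eigen equation at the empty set and at the singletons. -/

set_option autoImplicit false

open scoped Classical

namespace Pool.Agent.helper9.HX

open Finset
open Pool.Agent.helper65.HC (V IsEig IsTop lam)
open Pool.Agent.helper9.HQ (Fam Dn E N Le hi c)

noncomputable section

theorem EQ1_empty {d : ℕ} {U : Fam d} {l : ℝ} {f : Finset (Fin d) → ℝ} (h : Pf U l f) : l = ∑ i, f {i} := by
  have h1 := h.eq ∅ h.em
  rw [h.one, mul_one, Finset.sum_empty, zero_add, Finset.compl_empty] at h1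
  rw [h1]
  rfl

theorem EQ1_pd {d : ℕ} {U : Fam d} {l : ℝ} {f : Finset (Fin d) → ℝ} (h : Pf U l f) (i : Fin d) :
    ∑ j ∈ ({i} : Finset (Fin d))ᶜ, f (insert j {i}) = pd i U f := by
  unfold pd
  have h1 : ∑ j ∈ ({i} : Finset (Fin d))ᶜ, f (insert j {i}) =
      ∑ x ∈ (({i} : Finset (Fin d))ᶜ).image (fun j => insert j {i}), f x := by
    rw [Finset.sum_image]
    intro j hj k hk hjk
    have hj' : j ≠ i := by simpa using hj
    have : j ∈ insert k ({i} : Finset (Fin d)) := by
      have e : insert j ({i} : Finset (Fin d)) = insert k {i} := hjk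
      rw [← e]
      exact Finset.mem_insert_self _ _
    rcases Finset.mem_insert.1 this with h2 | h2
    · exact h2
    · exact absurd (Finset.mem_singleton.1 h2) hj'
  rw [h1]
  symm
  apply Finset.sum_subset_zero_on_sdiff
  · intro x hx
    obtain ⟨-, hc, hix⟩ := Finset.mem_filter.1 hx
    obtain ⟨a, b, hab, rfl⟩ := Finset.card_eq_two.1 hc
    rw [Finset.mem_image]
    rcases Finset.mem_insert.1 hix with rfl | h2
    · refine ⟨b, by simpa using hab.symm, ?_⟩
      exact Finset.pair_comm b i
    · have := Finset.mem_singleton.1 h2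
      subst this
      exact ⟨a, by simpa using hab, rfl⟩
  · intro x hx
    obtain ⟨hx1, hx2⟩ := Finset.mem_sdiff.1 hx
    obtain ⟨j, hj, rfl⟩ := Finset.mem_image.1 hx1
    have hj' : j ≠ i := by simpa using hj
    apply h.out
    intro hU
    apply hx2
    rw [Finset.mem_filter]
    refine ⟨hU, Finset.card_pair hj', ?_⟩
    exact Finset.mem_insert_of_mem (Finset.mem_singleton_self i)
  · intro x _
    rfl

theorem EQ1_single {d : ℕ} {U : Fam d} {l : ℝ} {f : Finset (Fin d) → ℝ} (h : Pf U l f) (i : Fin d)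
    (hi : {i} ∈ U) : l * f {i} = 1 + pd i U f := by
  rw [h.eq {i} hi, Finset.sum_singleton, EQ1_pd h i]
  congr 1
  have : ({i} : Finset (Fin d)).erase i = ∅ := by simp
  rw [this, h.one]

theorem EQ1_sum {d : ℕ} (U : Fam d) (f : Finset (Fin d) → ℝ) : ∑ i, pd i U f = 2 * s2 U f := by
  unfold pd s2
  have h1 : ∀ i : Fin d, ∑ x ∈ U.filter (fun x => x.card = 2 ∧ i ∈ x), f x =
      ∑ x ∈ U.filter (fun x => x.card = 2), if i ∈ x then f x else 0 := by
    intro i
    rw [← Finset.sum_filter, Finset.filter_filter]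
  rw [Finset.sum_congr rfl fun i _ => h1 i, Finset.sum_comm, Finset.mul_sum]
  refine Finset.sum_congr rfl fun x hx => ?_
  rw [← Finset.sum_filter, Finset.sum_const, nsmul_eq_mul]
  have e : (univ.filter fun i => i ∈ x) = x := by
    ext i
    simp
  rw [e, (Finset.mem_filter.1 hx).2]
  norm_num

theorem EQ1_nu {d : ℕ} (U : Fam d) : (nu U : ℝ) = ((univ.filter fun i : Fin d => {i} ∈ U).card : ℝ) := by
  unfold nu
  congr 1
  have : U.filter (fun x => x.card = 1) = (univ.filter fun i : Fin d => {i} ∈ U).image fun i => {i} := by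
    ext x
    rw [Finset.mem_filter, Finset.mem_image]
    constructor
    · rintro ⟨hx, hc⟩
      obtain ⟨a, rfl⟩ := Finset.card_eq_one.1 hc
      exact ⟨a, by simpa using hx, rfl⟩
    · rintro ⟨i, hi, rfl⟩
      exact ⟨(Finset.mem_filter.1 hi).2, Finset.card_singleton i⟩
  rw [this, Finset.card_image_of_injective]
  intro a b hab
  exact Finset.singleton_injective hab

theorem EQ1 : EQ1_stmt := by
  intro d U l f h
  have hl := EQ1_empty h
  have hl0 : 0 ≤ l := by
    rw [hl]
    exact Finset.sum_nonneg fun i _ => h.nn _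
  have hsing := EQ1_single h
  have hpd0 : ∀ i, 0 ≤ pd i U f := fun i => Finset.sum_nonneg fun x _ => h.nn x
  have hs0 : 0 ≤ s2 U f := Finset.sum_nonneg fun x _ => h.nn x
  have hpdz : ∀ i, {i} ∉ U → pd i U f = 0 := by
    intro i hi
    unfold pd
    refine Finset.sum_eq_zero fun x hx => ?_
    obtain ⟨hxU, -, hix⟩ := Finset.mem_filter.1 hx
    exact absurd (h.dn x hxU {i} (Finset.singleton_subset_iff.2 hix)) hi
  have hsq : l ^ 2 = nu U + 2 * s2 U f := by
    have h1 : l ^ 2 = ∑ i, l * f {i} := by
      rw [← Finset.mul_sum, ← hl, sq]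
    have h2 : ∀ i : Fin d, l * f {i} = (if {i} ∈ U then (1 : ℝ) else 0) + pd i U f := by
      intro i
      by_cases hi : {i} ∈ U
      · rw [if_pos hi, hsing i hi]
      · rw [if_neg hi, hpdz i hi, h.out _ hi]
        ring
    rw [h1, Finset.sum_congr rfl fun i _ => h2 i, Finset.sum_add_distrib, EQ1_sum, EQ1_nu]
    congr 1
    rw [Finset.sum_boole]
  refine ⟨hl0, hl, hsing, ?_, hsq, ?_⟩
  · intro i
    by_cases hi : {i} ∈ U
    · rw [hsing i hi]
      have : pd i U f ≤ s2 U f := by
        unfold pd s2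
        refine Finset.sum_le_sum_of_subset_of_nonneg ?_ fun x _ _ => h.nn x
        intro x hx
        obtain ⟨h1, h2, -⟩ := Finset.mem_filter.1 hx
        exact Finset.mem_filter.2 ⟨h1, h2⟩
      linarith
    · rw [h.out _ hi]
      linarith
  · have h1 : s2 U f ≤ ee U := by
      unfold s2 ee
      calc ∑ x ∈ U.filter (fun x => x.card = 2), f x ≤ ∑ x ∈ U.filter (fun x => x.card = 2), (1 : ℝ) := by
            refine Finset.sum_le_sum fun x _ => ?_
            rw [← h.one]
            exact h.mono x ∅ (Finset.empty_subset x)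
        _ = ((U.filter fun x => x.card = 2).card : ℝ) := by
            rw [Finset.sum_const, nsmul_eq_mul, mul_one]
    have h2 : nu U + ee U ≤ U.card := by
      unfold nu ee
      rw [← Finset.card_union_of_disjoint]
      · refine Finset.card_le_card (Finset.union_subset (Finset.filter_subset _ _) (Finset.filter_subset _ _))
      · rw [Finset.disjoint_left]
        intro x hx hx'
        have e1 := (Finset.mem_filter.1 hx).2
        have e2 := (Finset.mem_filter.1 hx').2
        omega
    have h3 : (nu U : ℝ) + ee U ≤ U.card := by exact_mod_cast h2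
    have h4 : (0 : ℝ) ≤ nu U := Nat.cast_nonneg _
    rw [hsq]
    linarith

end

end Pool.Agent.helper9.HX
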